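import Pool.Agent.H751.AB.Stm3

/-!
# Assembly (helper179): the congruence property for abelian groups acting on lattices, and
Chevalley's theorem for commutative groups of integral matrices
-/

set_option autoImplicit false

namespace Pool.Agent.H179.AB

open Pool.Agent.H751.AB NumberField

theorem T_CSA (h1 : S_IRR) (h2 : S_RED) : S_CSA := by
  have main : ∀ r : ℕ, ∀ (G M : Type) [CommGroup G] [AddCommGroup M] [Module.Free ℤ M]
      [Module.Finite ℤ M] (ρ : G →* AddMonoid.End M), Module.finrank ℤ M = r → CSP G M ρ := by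
    intro r
    induction r using Nat.strong_induction_on with
    | _ r ih =>
      intro G M _ _ _ _ ρ hr
      by_cases hS : ∃ S : AddSubgroup M, (∀ g : G, ∀ x ∈ S, ρ g x ∈ S) ∧
          (∀ (k : ℤ) (x : M), k ≠ 0 → k • x ∈ S → x ∈ S) ∧ S ≠ ⊥ ∧ S ≠ ⊤
      · refine h2 r ?_ G M ρ hr hS
        intro G' M' _ _ _ _ ρ' hlt
        exact ih _ hlt G' M' ρ' rfl
      · refine h1 G M ρ ?_
        intro S s1 s2
        by_contra hcon
        push Not at hcon
        exact hS ⟨S, s1, s2, hcon.1, hcon.2⟩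
  intro G M _ _ _ _ ρ
  exact main _ G M ρ rfl

/-- the action of a group of integral matrices on the lattice -/
noncomputable def act {n : ℕ} (H : Subgroup (Matrix (Fin n) (Fin n) ℤ)ˣ) :
    H →* AddMonoid.End (Fin n → ℤ) where
  toFun h := (Matrix.mulVecLin ((h : (Matrix (Fin n) (Fin n) ℤ)ˣ) : Matrix (Fin n) (Fin n) ℤ)).toAddMonoidHom
  map_one' := by
    ext x : 1
    change Matrix.mulVec (1 : Matrix (Fin n) (Fin n) ℤ) x = x
    exact Matrix.one_mulVec x
  map_mul' a b := by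
    ext x : 1
    change Matrix.mulVec (((a : (Matrix (Fin n) (Fin n) ℤ)ˣ) : Matrix (Fin n) (Fin n) ℤ) *
      ((b : (Matrix (Fin n) (Fin n) ℤ)ˣ) : Matrix (Fin n) (Fin n) ℤ)) x =
      Matrix.mulVec ((a : (Matrix (Fin n) (Fin n) ℤ)ˣ) : Matrix (Fin n) (Fin n) ℤ)
        (Matrix.mulVec ((b : (Matrix (Fin n) (Fin n) ℤ)ˣ) : Matrix (Fin n) (Fin n) ℤ) x)
    exact (Matrix.mulVec_mulVec _ _ _).symm

theorem act_apply {n : ℕ} (H : Subgroup (Matrix (Fin n) (Fin n) ℤ)ˣ) (h : H) (x : Fin n → ℤ) :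
    act H h x = Matrix.mulVec ((h : (Matrix (Fin n) (Fin n) ℤ)ˣ) : Matrix (Fin n) (Fin n) ℤ) x := rfl

theorem T_CHEV (h : S_CSA) : S_CHEV := by
  intro n H hc D hD
  let _ : CommGroup H := { (inferInstance : Group H) with
    mul_comm := fun a b => Subtype.ext (hc a a.2 b b.2) }
  have hker : (act H).ker ≤ D.subgroupOf H := by
    intro g hg
    have h1 : act H g = 1 := hg
    have h2 : ((g : (Matrix (Fin n) (Fin n) ℤ)ˣ) : Matrix (Fin n) (Fin n) ℤ) = 1 := by
      apply Matrix.mulVec_injective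
      funext x
      have h3 : act H g x = x := by rw [h1]; rfl
      rw [act_apply] at h3
      rw [h3, Matrix.one_mulVec]
    have h4 : g = 1 := Subtype.ext (Units.ext h2)
    rw [h4]
    exact one_mem _
  obtain ⟨N, hN, hmem⟩ := h H (Fin n → ℤ) (act H) (D.subgroupOf H) hD hker
  refine ⟨N, hN, fun g hg hdiv => ?_⟩
  choose c hc' using hdiv
  have h5 := hmem ⟨g, hg⟩ (by
    intro x
    refine ⟨fun i => ∑ j, c i j * x j, ?_⟩
    rw [act_apply]
    have h6 : (g : Matrix (Fin n) (Fin n) ℤ) = 1 + ((g : Matrix (Fin n) (Fin n) ℤ) - 1) := by abel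
    change Matrix.mulVec (g : Matrix (Fin n) (Fin n) ℤ) x = _
    rw [h6, Matrix.add_mulVec, Matrix.one_mulVec]
    congr 1
    funext i
    simp only [Matrix.mulVec, dotProduct, Pi.smul_apply, nsmul_eq_mul, hc', Finset.mul_sum, mul_assoc])
  exact h5

end Pool.Agent.H179.AB
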